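import Pool.Agent.Q9.EL.ECB
import Pool.Agent.Q9.EP.Prm

/-!
# The logarithm of the twisted L-series of an elliptic curve, with its coefficients at the primes
-/

set_option autoImplicit false

namespace Pool.Agent.Q9.EP

open MeasureTheory Filter Topology NumberField IsDedekindDomain
open Pool.Agent.TH339.MP (PP wt fr ee qq TX PS two_le_qq continuous_PS wt_nonneg bl
  boundary M_nonneg FF bb norm_bb hasProd_L nm tm mem_TX ap bl_angle lv hasSum_all exp_lv
  PS_tendsto ae_notMem elf S6 lfac av_triv two_le_nm exists_beta cpow_two ee_pow norm_ee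
  card_S6 sum_dg_le dg pr nm_eq Sp mem_Sp dg_pos norm_tm summable_tm wt_anti wt_one)
open Pool.Agent.Y770.SC (tw norm_tw bb_tw)
open Pool.Agent.Q9.EL

section
variable {K : Type} [Field K] [NumberField K]

/-- the sum of the traces at the places of norm `p` -/
noncomputable def AE (W : HeightOneSpectrum (𝓞 K) → WeierstrassCurve (𝓞 K)) (p : ℕ) : ℂ :=
  ∑ᶠ v ∈ {v : HeightOneSpectrum (𝓞 K) | nm v = p}, (Pool.Agent.TH339.MP.av W v : ℂ)

lemma trace_beta {W : HeightOneSpectrum (𝓞 K) → WeierstrassCurve (𝓞 K)} {v : HeightOneSpectrum (𝓞 K)}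
    {β : Fin 2 → ℂ}
    (h : ∀ s : ℂ, elf W v s = ∏ j, (1 - β j * ((nm v : ℕ) : ℂ) ^ (-(s - 1 / 2)))⁻¹) :
    ∑ j, β j = (Pool.Agent.TH339.MP.av W v : ℂ) * ((nm v : ℕ) : ℂ) ^ (-(1 / 2) : ℂ) := by
  have hn : ((nm v : ℕ) : ℂ) ≠ 0 := by
    have := two_le_nm v
    exact Nat.cast_ne_zero.2 (by omega)
  have hl : Complex.log ((nm v : ℕ) : ℂ) ≠ 0 := by
    have h2 := two_le_nm v
    rw [← Complex.ofReal_natCast, ← Complex.ofReal_log (Nat.cast_nonneg _)]
    have : 0 < Real.log ((nm v : ℕ) : ℝ) := Real.log_pos (by exact_mod_cast (by omega : 1 < nm v))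
    exact_mod_cast this.ne'
  set s2 : ℂ := 1 / 2 + Real.pi * Complex.I / Complex.log ((nm v : ℕ) : ℂ) with hs2
  have h1 := poly_id (c := fun _ => 1) W h (1 / 2)
  have h2 := poly_id (c := fun _ => 1) W h s2
  have e1 : ((nm v : ℕ) : ℂ) ^ (-((1 : ℂ) / 2 - 1 / 2)) = 1 := by simp
  have e3 : ((nm v : ℕ) : ℂ) ^ (-(Real.pi * Complex.I / Complex.log ((nm v : ℕ) : ℂ))) = -1 := by
    rw [Complex.cpow_def_of_ne_zero hn]
    have : Complex.log ((nm v : ℕ) : ℂ) * (-(Real.pi * Complex.I / Complex.log ((nm v : ℕ) : ℂ))) =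
        -(Real.pi * Complex.I) := by field_simp
    rw [this, Complex.exp_neg, Complex.exp_pi_mul_I]
    norm_num
  have e2 : ((nm v : ℕ) : ℂ) ^ (-(s2 - 1 / 2)) = -1 := by
    rw [hs2, add_sub_cancel_left]
    exact e3
  have e4 : ((nm v : ℕ) : ℂ) ^ (-s2) = -((nm v : ℕ) : ℂ) ^ (-(1 / 2) : ℂ) := by
    have : -s2 = -(1 / 2) + -(Real.pi * Complex.I / Complex.log ((nm v : ℕ) : ℂ)) := by
      rw [hs2]
      ring
    rw [this, Complex.cpow_add _ _ hn, e3]
    ring
  rw [Fin.prod_univ_two, e1] at h1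
  rw [Fin.prod_univ_two, e2] at h2
  unfold yv at h1 h2
  rw [e4] at h2
  rw [Fin.sum_univ_two]
  linear_combination (h1 - h2) / 2

lemma nm_eq_iff (v : HeightOneSpectrum (𝓞 K)) (p : Nat.Primes) :
    nm v = (p : ℕ) ↔ pr v = p ∧ dg v = 1 := by
  have h1 := nm_eq v
  have h2 := dg_pos v
  constructor
  · intro h
    rw [h] at h1
    have hp := p.2
    have hpv := (pr v).2
    have h3 : dg v = 1 := by
      rcases Nat.lt_or_ge 1 (dg v) with h4 | h4
      · exfalso
        rw [h1] at hp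
        exact (Nat.Prime.not_prime_pow h4) hp
      · omega
    rw [h3, pow_one] at h1
    exact ⟨Subtype.ext h1.symm, h3⟩
  · rintro ⟨h3, h4⟩
    rw [h1, h3, h4, pow_one]

lemma AE_eq (W : HeightOneSpectrum (𝓞 K) → WeierstrassCurve (𝓞 K)) (p : Nat.Primes) :
    AE W p = ∑ v ∈ (Sp p : Finset (HeightOneSpectrum (𝓞 K))),
      if dg v = 1 then (Pool.Agent.TH339.MP.av W v : ℂ) else 0 := by
  classical
  unfold AE
  have h1 : {v : HeightOneSpectrum (𝓞 K) | nm v = (p : ℕ)} =
      ((Sp p : Finset (HeightOneSpectrum (𝓞 K))).filter fun v => dg v = 1 :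
        Finset (HeightOneSpectrum (𝓞 K))) := by
    ext v
    rw [Set.mem_ofPred_eq, Finset.coe_filter, Set.mem_ofPred_eq, mem_Sp, nm_eq_iff]
  rw [h1, finsum_mem_coe_finset, Finset.sum_filter]

variable {c : ℕ → ℂ} (hc : ∀ n, ‖c n‖ ≤ 1) (W : HeightOneSpectrum (𝓞 K) → WeierstrassCurve (𝓞 K))
include hc

/-- **The logarithm, with its coefficients at the primes.** -/
theorem lE_coef : ∃ b : PP → ℂ,
    (∀ x, ‖b x‖ ≤ ((2 * Module.finrank ℚ K : ℕ) : ℝ) / (x.2 + 1 : ℕ)) ∧
    (∀ s : ℂ, 3 / 2 < s.re → lE c W s = h6 c W s + FF b (s - 1 / 2)) ∧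
    (∀ p : Nat.Primes, 3 < (p : ℕ) → b (p, 0) = c p * AE W p * ((p : ℕ) : ℂ) ^ (-(1 / 2) : ℂ)) ∧
    ∀ p : Nat.Primes, (p : ℕ) ≤ 3 → b (p, 0) = 0 := by
  classical
  obtain ⟨β, h1, h2⟩ := exists_beta W
  set β' : HeightOneSpectrum (𝓞 K) → Fin 2 → ℂ := fun v j => if v ∈ S6 then 0 else β v j with hβ'
  have hb' : ∀ v j, ‖β' v j‖ ≤ 1 := by
    intro v j
    simp only [hβ']
    split_ifs
    · simp
    · exact h1 v j
  refine ⟨bb (tw c β'), fun x => ?_, fun s hs => ?_, fun p hp => ?_, fun p hp => ?_⟩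
  · have := norm_bb (norm_tw hc hb') x
    push_cast at this ⊢
    rw [mul_comm (2 : ℝ)]
    exact this
  · have hs1 : 1 < (s - 1 / 2).re := by
      have : (s - 1 / 2).re = s.re - 1 / 2 := by simp
      rw [this]
      linarith
    have h3 := hasSum_all (norm_tw hc hb') hs1
    have h4 : HasSum (fun v => if v ∈ (S6 : Finset (HeightOneSpectrum (𝓞 K))) then
        lec c W v s else 0) (h6 c W s) := by
      have h5 := hasSum_sum_of_ne_finset_zero (L := SummationFilter.unconditional _)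
        (s := (S6 : Finset (HeightOneSpectrum (𝓞 K))))
        (f := fun v => if v ∈ (S6 : Finset (HeightOneSpectrum (𝓞 K))) then lec c W v s else 0)
        (fun v hv => if_neg hv)
      have h6' : ∑ v ∈ (S6 : Finset (HeightOneSpectrum (𝓞 K))),
          (if v ∈ (S6 : Finset (HeightOneSpectrum (𝓞 K))) then lec c W v s else 0) = h6 c W s :=
        Finset.sum_congr rfl fun v hv => if_pos hv
      rwa [h6'] at h5
    have h5 := h4.add h3
    have h7 : (fun v => (if v ∈ (S6 : Finset (HeightOneSpectrum (𝓞 K))) then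
        lec c W v s else 0) + lv (tw c β') v (s - 1 / 2)) = fun v => lec c W v s := by
      funext v
      by_cases hv : v ∈ (S6 : Finset (HeightOneSpectrum (𝓞 K)))
      · rw [if_pos hv]
        unfold Pool.Agent.TH339.MP.lv tw
        simp only [hβ', if_pos hv]
        simp
      · rw [if_neg hv, zero_add, lec_eq hc W (h1 v) (h2 v hv) hs]
        unfold Pool.Agent.TH339.MP.lv tw
        simp only [hβ', if_neg hv]
    rw [h7] at h5
    exact h5.tsum_eq
  · rw [AE_eq, Finset.mul_sum, Finset.sum_mul]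
    unfold Pool.Agent.TH339.MP.bb
    refine Finset.sum_congr rfl fun v hv => ?_
    have hpr : pr v = p := (mem_Sp _ _).1 hv
    by_cases hd : dg v = 1
    · have hnm : nm v = (p : ℕ) := (nm_eq_iff v p).2 ⟨hpr, hd⟩
      have hv6 : v ∉ (S6 : Finset (HeightOneSpectrum (𝓞 K))) := by
        intro h6
        unfold Pool.Agent.TH339.MP.S6 at h6
        rcases Finset.mem_union.1 h6 with h7 | h7
        · have h8 := (mem_Sp _ _).1 h7
          rw [hpr] at h8
          have h9 : (p : ℕ) = 2 := congrArg Subtype.val h8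
          omega
        · have h8 := (mem_Sp _ _).1 h7
          rw [hpr] at h8
          have h9 : (p : ℕ) = 3 := congrArg Subtype.val h8
          omega
      have h8 := trace_beta (h2 v hv6)
      simp only [hd, zero_add, dvd_refl, if_true, Nat.div_self one_pos, pow_one]
      have e1 : ∑ j, tw c β' v j = c (nm v) * ∑ j, β v j := by
        unfold tw
        simp only [hβ', if_neg hv6]
        rw [Finset.mul_sum]
      rw [e1, h8, hnm]
      push_cast
      ring
    · have h9 : ¬ dg v ∣ (0 + 1) := by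
        intro h
        exact hd (Nat.dvd_one.1 (by simpa using h))
      simp only [if_neg h9, if_neg hd, mul_zero, zero_mul]
  · unfold Pool.Agent.TH339.MP.bb
    refine Finset.sum_eq_zero fun v hv => ?_
    have hpr : pr v = p := (mem_Sp _ _).1 hv
    have h2p := p.2.two_le
    have h6 : v ∈ (S6 : Finset (HeightOneSpectrum (𝓞 K))) := by
      unfold Pool.Agent.TH339.MP.S6
      rw [Finset.mem_union, mem_Sp, mem_Sp, hpr]
      rcases (by omega : (p : ℕ) = 2 ∨ (p : ℕ) = 3) with h | h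
      · exact Or.inl (Subtype.ext h)
      · exact Or.inr (Subtype.ext h)
    have h7 : ∀ j, tw c β' v j = 0 := by
      intro j
      unfold tw
      simp only [hβ', if_pos h6, mul_zero]
    split_ifs with h8
    · have hd := dg_pos v
      have h9 : dg v = 1 := Nat.dvd_one.1 (by simpa using h8)
      simp [h7, h9]
    · rfl

end

end Pool.Agent.Q9.EP
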