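import Pool.Agent.Q9.EP.Hol

/-!
# Continuation of the L-series of an elliptic curve across the edge
-/

set_option autoImplicit false

namespace Pool.Agent.Q9.EP

open NumberField IsDedekindDomain Filter Topology
open Pool.Agent.TH339.MP (PP FF S6 nm av two_le_nm)
open Pool.Agent.Q9.EL

variable {K : Type} [Field K] [NumberField K]

/-- the inverse of the Euler factors at the places above `6` -/
noncomputable def P6 (c : ℕ → ℂ) (W : HeightOneSpectrum (𝓞 K) → WeierstrassCurve (𝓞 K)) (s : ℂ) : ℂ :=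
  ∏ v ∈ (S6 : Finset (HeightOneSpectrum (𝓞 K))), (1 - yv c W v s)

/-- the Euler product -/
noncomputable def LE (c : ℕ → ℂ) (W : HeightOneSpectrum (𝓞 K) → WeierstrassCurve (𝓞 K)) (s : ℂ) : ℂ :=
  ∏' v : HeightOneSpectrum (𝓞 K), (1 - yv c W v s)⁻¹

/-- the normalised traces -/
noncomputable def aE (c : ℕ → ℂ) (W : HeightOneSpectrum (𝓞 K) → WeierstrassCurve (𝓞 K)) (p : ℕ) : ℂ :=
  if 3 < p then c p * AE W p * (p : ℂ) ^ (-(1 / 2) : ℂ) else 0

lemma P6_diff (c : ℕ → ℂ) (W : HeightOneSpectrum (𝓞 K) → WeierstrassCurve (𝓞 K)) :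
    Differentiable ℂ (P6 c W) := by
  unfold P6
  refine Differentiable.fun_finsetProd fun v _ => ?_
  have hn : ((nm v : ℕ) : ℂ) ≠ 0 := by
    have := two_le_nm v
    exact Nat.cast_ne_zero.2 (by omega)
  have h1 : Differentiable ℂ fun s : ℂ => ((nm v : ℕ) : ℂ) ^ (-s) := by
    intro s
    exact (differentiable_id.neg s).const_cpow (Or.inl hn)
  unfold yv
  exact (differentiable_const _).sub (((differentiable_const _).mul ((differentiable_const _).mul h1)).sub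
    ((differentiable_const _).mul (((differentiable_const _).mul h1).pow 2)))

variable {c : ℕ → ℂ} (hc : ∀ n, ‖c n‖ ≤ 1) (W : HeightOneSpectrum (𝓞 K) → WeierstrassCurve (𝓞 K))
include hc

lemma P6_ne {s : ℂ} (hs : 3 / 2 ≤ s.re) : P6 c W s ≠ 0 := by
  unfold P6
  refine Finset.prod_ne_zero_iff.2 fun v _ => ?_
  exact Complex.slitPlane_ne_zero (yv_ne hc W v hs)

lemma exp_h6 {s : ℂ} (hs : 3 / 2 ≤ s.re) : Complex.exp (h6 c W s) * P6 c W s = 1 := by
  unfold h6 P6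
  rw [Complex.exp_sum, ← Finset.prod_mul_distrib]
  refine Finset.prod_eq_one fun v _ => ?_
  unfold lec
  have h1 : 1 - yv c W v s ≠ 0 := Complex.slitPlane_ne_zero (yv_ne hc W v hs)
  rw [Complex.exp_neg, Complex.exp_log h1, inv_mul_cancel₀ h1]

/-- the structure of the Euler product -/
theorem LE_structure : ∃ b : PP → ℂ,
    (∀ x, ‖b x‖ ≤ ((2 * Module.finrank ℚ K : ℕ) : ℝ) / (x.2 + 1 : ℕ)) ∧
    (∀ s : ℂ, 3 / 2 < s.re → LE c W s * P6 c W s = Complex.exp (FF b (s - 1 / 2))) ∧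
    ∀ (p : ℕ) (hp : p.Prime), aE c W p = b (⟨p, hp⟩, 0) := by
  obtain ⟨b, h1, h2, h3, h4⟩ := lE_coef hc W
  refine ⟨b, h1, fun s hs => ?_, fun p hp => ?_⟩
  · have h5 : LE c W s = Complex.exp (lE c W s) := (exp_lE hc W hs).tprod_eq
    rw [h5, h2 s hs, Complex.exp_add, mul_right_comm, exp_h6 hc W hs.le, one_mul]
  · unfold aE
    split_ifs with h
    · exact (h3 ⟨p, hp⟩ h).symm
    · exact (h4 ⟨p, hp⟩ (not_lt.1 h)).symm

lemma LE_ne {s : ℂ} (hs : 3 / 2 < s.re) : LE c W s ≠ 0 := by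
  obtain ⟨b, -, h, -⟩ := LE_structure hc W
  intro h0
  have h1 := h s hs
  rw [h0, zero_mul] at h1
  exact Complex.exp_ne_zero _ h1.symm

lemma LE_diff : DifferentiableOn ℂ (LE c W) {s : ℂ | 3 / 2 < s.re} := by
  obtain ⟨b, hb, h, -⟩ := LE_structure hc W
  have h1 : DifferentiableOn ℂ (fun s : ℂ => Complex.exp (FF b (s - 1 / 2)) * (P6 c W s)⁻¹)
      {s : ℂ | 3 / 2 < s.re} := by
    refine DifferentiableOn.mul (DifferentiableOn.cexp ?_) ?_
    · refine (Pool.Agent.TH339.MP.differentiableOn_FF hb).comp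
        (by fun_prop : Differentiable ℂ fun s : ℂ => s - 1 / 2).differentiableOn ?_
      intro s hs
      have hs' : 3 / 2 < s.re := hs
      change 1 < (s - 1 / 2).re
      have : (s - 1 / 2).re = s.re - 1 / 2 := by simp
      rw [this]
      linarith
    · refine (P6_diff c W).differentiableOn.inv fun s hs => P6_ne hc W (le_of_lt hs)
  refine h1.congr fun s hs => ?_
  rw [← h s hs, mul_assoc, mul_inv_cancel₀ (P6_ne hc W (le_of_lt hs)), mul_one]

/-- **The criterion at one point.** -/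
theorem ec_mer (τ : ℝ) (m : ℤ) : Mer (LE c W) (3 / 2) (((3 / 2 : ℝ) : ℂ) + τ * Complex.I) (-m) ↔
    ApprQ (fun p => aE c W p - m * (p : ℂ) ^ ((τ : ℂ) * Complex.I)) τ := by
  obtain ⟨b, hb, h, ha⟩ := LE_structure hc W
  have hw : 3 / 2 ≤ (((3 / 2 : ℝ) : ℂ) + τ * Complex.I).re := by
    have : (((3 / 2 : ℝ) : ℂ) + τ * Complex.I).re = 3 / 2 := by
      rw [Complex.add_re, Complex.ofReal_re, Complex.re_ofReal_mul, Complex.I_re, mul_zero, add_zero]
    exact this.ge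
  have h1 := mer_mul_iff (F := LE c W) (e := 3 / 2) (m := -m)
    ((P6_diff c W).analyticAt (((3 / 2 : ℝ) : ℂ) + τ * Complex.I)) (P6_ne hc W hw)
  rw [← h1]
  have hF : ∀ s : ℂ, 1 < s.re → (fun s => LE c W s * P6 c W s) (s + ((1 / 2 : ℝ) : ℂ)) =
      Complex.exp (FF b s) := by
    intro s hs
    have h2 := h (s + ((1 / 2 : ℝ) : ℂ)) (by
      rw [Complex.add_re, Complex.ofReal_re]
      linarith)
    refine h2.trans ?_
    congr 2
    push_cast
    ring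
  have h3 := mer_iff_prime (F := fun s => LE c W s * P6 c W s) (τ := τ) (κ := 1 / 2) hb hF ha m
  have e1 : (1 : ℝ) + 1 / 2 = 3 / 2 := by norm_num
  rw [e1] at h3
  exact h3

/-- **Meromorphic continuation.** -/
theorem ec_glue (A : Set ℝ) :
    (∃ (U : Set ℂ) (G : ℂ → ℂ), IsOpen U ∧ {s : ℂ | 3 / 2 < s.re} ⊆ U ∧
      (∀ τ ∈ A, (((3 / 2 : ℝ) : ℂ) + τ * Complex.I) ∈ U) ∧ MeromorphicOn G U ∧
      ∀ s, 3 / 2 < s.re → G s = LE c W s) ↔
    ∀ τ ∈ A, ∃ m : ℤ, ApprQ (fun p => aE c W p - m * (p : ℂ) ^ ((τ : ℂ) * Complex.I)) τ := by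
  rw [← glue (LE_diff hc W) (fun s hs => LE_ne hc W hs) A]
  refine forall₂_congr fun τ _ => ?_
  constructor
  · rintro ⟨m, hm⟩
    refine ⟨-m, ?_⟩
    rw [← ec_mer hc W, neg_neg]
    exact hm
  · rintro ⟨m, hm⟩
    exact ⟨-m, (ec_mer hc W τ m).2 hm⟩

/-- **Holomorphic continuation.** -/
theorem ec_glue_hol (A : Set ℝ) :
    (∃ (U : Set ℂ) (G : ℂ → ℂ), IsOpen U ∧ {s : ℂ | 3 / 2 < s.re} ⊆ U ∧
      (∀ τ ∈ A, (((3 / 2 : ℝ) : ℂ) + τ * Complex.I) ∈ U) ∧ DifferentiableOn ℂ G U ∧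
      ∀ s, 3 / 2 < s.re → G s = LE c W s) ↔
    ∀ τ ∈ A, ∃ m : ℤ, m ≤ 0 ∧
      ApprQ (fun p => aE c W p - m * (p : ℂ) ^ ((τ : ℂ) * Complex.I)) τ := by
  rw [← glue_hol (LE_diff hc W) (fun s hs => LE_ne hc W hs) A]
  refine forall₂_congr fun τ _ => ?_
  constructor
  · rintro ⟨m, hm0, hm⟩
    refine ⟨-m, by omega, ?_⟩
    rw [← ec_mer hc W, neg_neg]
    exact hm
  · rintro ⟨m, hm0, hm⟩
    exact ⟨-m, by omega, (ec_mer hc W τ m).2 hm⟩

end Pool.Agent.Q9.EP
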