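import Pool.Agent.Q9.EP.Prm
import Pool.Agent.Q9.EP.EC

/-!
# Holomorphic continuation, and elliptic curves
-/

set_option autoImplicit false

namespace Pool.Agent.Q9.EP

open NumberField IsDedekindDomain Filter Topology
open Pool.Agent.TH339.MP (PP FF S6 nm av)
open Pool.Agent.Q9.EL

/-- the order of a meromorphic continuation is unique -/
lemma mer_order {F G : ℂ → ℂ} {e : ℝ} {w : ℂ} {m : ℤ} (hw : w.re = e) (h : Mer F e w m)
    (hG : MeromorphicAt G w) (hGF : ∀ᶠ s in 𝓝 w, e < s.re → G s = F s) :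
    meromorphicOrderAt G w = m := by
  obtain ⟨g, hg, ho, he⟩ := h
  have h1 : ∃ᶠ s in 𝓝[≠] w, G s = g s := by
    have h2 : Tendsto (fun r : ℝ => w + (r : ℂ)) (𝓝[>] 0) (𝓝[≠] w) := by
      rw [tendsto_nhdsWithin_iff]
      constructor
      · have h3 : Tendsto (fun r : ℝ => w + (r : ℂ)) (𝓝 0) (𝓝 (w + ((0 : ℝ) : ℂ))) :=
          (continuous_const.add Complex.continuous_ofReal).tendsto _
        rw [Complex.ofReal_zero, add_zero] at h3
        exact h3.mono_left nhdsWithin_le_nhds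
      · filter_upwards [self_mem_nhdsWithin] with r hr
        have hr' : (0 : ℝ) < r := hr
        intro h4
        have h5 : w + (r : ℂ) = w := h4
        rw [add_eq_left] at h5
        exact hr'.ne' (by exact_mod_cast h5)
    have h3 : ∀ᶠ r : ℝ in 𝓝[>] 0, G (w + (r : ℂ)) = g (w + (r : ℂ)) := by
      have h4 := (h2.mono_right nhdsWithin_le_nhds).eventually (he.and hGF)
      filter_upwards [h4, self_mem_nhdsWithin] with r hr hr0
      have hr' : (0 : ℝ) < r := hr0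
      have h5 : e < (w + (r : ℂ)).re := by
        rw [Complex.add_re, Complex.ofReal_re, hw]
        linarith
      rw [hr.1 h5, hr.2 h5]
    exact h2.frequently h3.frequently
  have h4 := (hG.frequently_eq_iff_eventuallyEq hg).1 h1
  rw [meromorphicOrderAt_congr h4, ho]

lemma mer_mul {F P : ℂ → ℂ} {e : ℝ} {w : ℂ} {m : ℤ} (hP : AnalyticAt ℂ P w) (h0 : P w ≠ 0)
    (h : Mer F e w m) : Mer (fun s => F s * P s) e w m := by
  obtain ⟨g, hg, ho, he⟩ := h
  refine ⟨fun s => g s * P s, hg.fun_mul hP.meromorphicAt, ?_, ?_⟩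
  · have h1 : meromorphicOrderAt P w = 0 := by
      rw [hP.meromorphicNFAt.meromorphicOrderAt_eq_zero_iff]
      exact h0
    have h2 := meromorphicOrderAt_mul hg hP.meromorphicAt
    rw [ho, h1, add_zero] at h2
    exact h2
  · filter_upwards [he] with s hs hse
    rw [hs hse]

lemma mer_congr {F F' : ℂ → ℂ} {e : ℝ} {w : ℂ} {m : ℤ} (hF : ∀ᶠ s in 𝓝 w, e < s.re → F' s = F s)
    (h : Mer F e w m) : Mer F' e w m := by
  obtain ⟨g, hg, ho, he⟩ := h
  refine ⟨g, hg, ho, ?_⟩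
  filter_upwards [he, hF] with s h1 h2 hse
  rw [h1 hse, h2 hse]

lemma mer_mul_iff {F P : ℂ → ℂ} {e : ℝ} {w : ℂ} {m : ℤ} (hP : AnalyticAt ℂ P w) (h0 : P w ≠ 0) :
    Mer (fun s => F s * P s) e w m ↔ Mer F e w m := by
  refine ⟨fun h => ?_, mer_mul hP h0⟩
  have h1 := mer_mul (hP.inv h0) (inv_ne_zero h0) h
  refine mer_congr ?_ h1
  filter_upwards [hP.continuousAt.eventually_ne h0] with s hs _
  rw [Pi.inv_apply, mul_assoc, mul_inv_cancel₀ hs, mul_one]

/-- **Gluing, holomorphic version.** -/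
theorem glue_hol {F : ℂ → ℂ} {e : ℝ} (hFd : DifferentiableOn ℂ F {s : ℂ | e < s.re})
    (hF : ∀ s, e < s.re → F s ≠ 0) (A : Set ℝ) :
    (∀ τ ∈ A, ∃ m : ℤ, 0 ≤ m ∧ Mer F e (e + τ * Complex.I) m) ↔
    ∃ (U : Set ℂ) (G : ℂ → ℂ), IsOpen U ∧ {s : ℂ | e < s.re} ⊆ U ∧
      (∀ τ ∈ A, ((e : ℂ) + τ * Complex.I) ∈ U) ∧ DifferentiableOn ℂ G U ∧
      ∀ s, e < s.re → G s = F s := by
  have hre : ∀ τ : ℝ, ((e : ℂ) + τ * Complex.I).re = e := by
    intro τ
    simp
  have hV : IsOpen {s : ℂ | e < s.re} := isOpen_lt continuous_const Complex.continuous_re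
  constructor
  · intro H
    obtain ⟨U, G, hU, hsub, hA, hG, hGF⟩ := (glue hFd hF A).1 fun τ hτ => by
      obtain ⟨m, -, hm⟩ := H τ hτ
      exact ⟨m, hm⟩
    have key : ∀ s : ℂ, e < s.re → toMeromorphicNFOn G U =ᶠ[𝓝 s] F := by
      intro s hs
      have h1 : G =ᶠ[𝓝 s] F := by
        filter_upwards [hV.mem_nhds hs] with z hz using hGF z hz
      have h2 : AnalyticAt ℂ G s := (hFd.analyticAt (hV.mem_nhds hs)).congr h1.symm
      have h3 := toMeromorphicNFOn_eq_toMeromorphicNFAt_on_nhds hG (hsub hs)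
      rw [toMeromorphicNFAt_eq_self.2 h2.meromorphicNFAt] at h3
      exact h3.trans h1
    refine ⟨U ∩ {z | AnalyticAt ℂ (toMeromorphicNFOn G U) z}, toMeromorphicNFOn G U,
      hU.inter (isOpen_analyticAt ℂ _), fun s hs => ⟨hsub hs, ?_⟩, fun τ hτ => ⟨hA τ hτ, ?_⟩,
      fun z hz => hz.2.differentiableAt.differentiableWithinAt, fun s hs => (key s hs).eq_of_nhds⟩
    · exact (hFd.analyticAt (hV.mem_nhds hs)).congr (key s hs).symm
    · obtain ⟨m, hm0, hm⟩ := H τ hτ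
      have h1 := mer_order (hre τ) hm (hG _ (hA τ hτ)) (Eventually.of_forall fun s hs => hGF s hs)
      have h2 : meromorphicOrderAt (toMeromorphicNFOn G U) ((e : ℂ) + τ * Complex.I) = m := by
        rw [meromorphicOrderAt_congr (hG.toMeromorphicNFOn_eq_self_on_nhdsNE (hA τ hτ)), h1]
      have h3 := meromorphicNFOn_toMeromorphicNFOn G U (hA τ hτ)
      refine h3.meromorphicOrderAt_nonneg_iff_analyticAt.1 ?_
      rw [h2]
      exact_mod_cast hm0
  · rintro ⟨U, G, hU, -, hA, hG, hGF⟩ τ hτ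
    have h1 : AnalyticAt ℂ G ((e : ℂ) + τ * Complex.I) := hG.analyticAt (hU.mem_nhds (hA τ hτ))
    have h2 : ∀ᶠ s in 𝓝 ((e : ℂ) + τ * Complex.I), e < s.re → G s = F s :=
      Eventually.of_forall fun s hs => hGF s hs
    obtain ⟨m, hm⟩ := exists_mer (hre τ) hF h1.meromorphicAt h2
    refine ⟨m, ?_, hm⟩
    have h3 := mer_order (hre τ) hm h1.meromorphicAt h2
    have h4 := h1.meromorphicOrderAt_nonneg
    rw [h3] at h4
    exact_mod_cast h4

end Pool.Agent.Q9.EP
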